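import Mathlib

namespace Pool.Agent.H.MP_985997_co.A

open Finset

variable {V : Type} [Fintype V] [DecidableEq V]

open Classical in
noncomputable def mx (P : Finset V → Prop) (X : Finset V) : ℕ :=
  (X.powerset.filter P).sup card

omit [Fintype V] [DecidableEq V] in
theorem le_mx {P : Finset V → Prop} {X I : Finset V} (h : I ⊆ X) (hI : P I) : I.card ≤ mx P X := by
  classical
  unfold mx
  exact Finset.le_sup (f := card) (by simp [h, hI])

omit [Fintype V] [DecidableEq V] in
theorem ex_mx {P : Finset V → Prop} (h0 : P ∅) (X : Finset V) :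
    ∃ I ⊆ X, P I ∧ I.card = mx P X := by
  classical
  obtain ⟨I, hI, h⟩ := Finset.exists_mem_eq_sup (X.powerset.filter P) ⟨∅, by simp [h0]⟩ card
  simp only [mem_filter, mem_powerset] at hI
  exact ⟨I, hI.1, hI.2, by unfold mx; convert h.symm⟩

noncomputable abbrev ind (G : SimpleGraph V) := mx (fun I : Finset V => G.IsIndepSet I)
noncomputable abbrev cl (G : SimpleGraph V) := mx (fun I : Finset V => G.IsClique I)

omit [Fintype V] [DecidableEq V] in
theorem bound (G : SimpleGraph V)
    (hG : ∀ s : Set V, (G.induce s).chromaticNumber = (G.induce s).cliqueNum) (X : Finset V) :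
    X.card ≤ ind G X * cl G X := by
  classical
  have h1 : (G.induce (X : Set V)).Colorable (G.induce (X : Set V)).cliqueNum :=
    SimpleGraph.chromaticNumber_le_iff_colorable.1 (hG _).le
  obtain ⟨C⟩ := h1
  obtain ⟨K, hK⟩ := (G.induce (X : Set V)).exists_isNClique_cliqueNum
  have h2 : (G.induce (X : Set V)).cliqueNum ≤ cl G X := by
    rw [← hK.2, ← Finset.card_map (Function.Embedding.subtype _)]
    refine le_mx (fun x hx => ?_) ?_
    · obtain ⟨y, -, rfl⟩ := Finset.mem_map.1 hx
      exact y.2
    · intro x hx y hy hxy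
      obtain ⟨a, ha, rfl⟩ := Finset.mem_map.1 hx
      obtain ⟨b, hb, rfl⟩ := Finset.mem_map.1 hy
      exact hK.1 ha hb fun h => hxy (congrArg _ h)
  have h3 := Finset.card_le_mul_card_image_of_maps_to (s := (univ : Finset (X : Set V)))
    (t := univ) (f := C) (fun _ _ => mem_univ _) (ind G X) (by
      intro b _
      rw [← Finset.card_map (Function.Embedding.subtype _)]
      refine le_mx (fun x hx => ?_) ?_
      · obtain ⟨y, -, rfl⟩ := Finset.mem_map.1 hx
        exact y.2
      · intro x hx y hy hxy hadj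
        obtain ⟨a, ha, rfl⟩ := Finset.mem_map.1 hx
        obtain ⟨c, hc, rfl⟩ := Finset.mem_map.1 hy
        exact C.valid (show (G.induce (X : Set V)).Adj a c from hadj)
          ((mem_filter.1 ha).2.trans (mem_filter.1 hc).2.symm))
  simp only [card_univ, Fintype.card_fin, Fintype.card_coe, coe_sort_coe] at h3
  exact h3.trans (Nat.mul_le_mul_left _ h2)

omit [Fintype V] in
theorem lin {ι : Type} [Fintype ι] [DecidableEq ι] (X : Finset V) (S K : ι → Finset V)
    (hS : ∀ i, S i ⊆ X) (h1 : ∀ i j, (K j ∩ S i).card = if i = j then 0 else 1)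
    (h2 : 2 ≤ Fintype.card ι) : Fintype.card ι ≤ X.card := by
  let v : ι → X → ℚ := fun i x => if x.1 ∈ S i then 1 else 0
  have hv : LinearIndependent ℚ v := by
    rw [Fintype.linearIndependent_iff]
    intro g hg
    have hj : ∀ j, g j = ∑ i, g i := by
      intro j
      have e1 : ∑ x : X, (if x.1 ∈ K j then (∑ i, g i • v i) x else 0) = 0 := by
        rw [hg]; simp
      have e2 : ∀ i, ∑ x : X, (if x.1 ∈ K j then g i * v i x else 0) =
          g i * (if i = j then 0 else 1) := by
        intro i
        have : ∑ x : X, (if x.1 ∈ K j then g i * v i x else 0) =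
            ∑ x ∈ X, (if x ∈ K j ∩ S i then g i else 0) := by
          rw [← Finset.sum_coe_sort X]
          refine Finset.sum_congr rfl fun x _ => ?_
          by_cases a : x.1 ∈ K j <;> by_cases b : x.1 ∈ S i <;> simp [v, a, b]
        rw [this, Finset.sum_ite_mem, Finset.inter_eq_right.2 (inter_subset_right.trans (hS i)),
          Finset.sum_const, h1]
        split_ifs <;> simp
      have e3 : ∑ x : X, (if x.1 ∈ K j then (∑ i, g i • v i) x else 0) =
          ∑ i, ∑ x : X, (if x.1 ∈ K j then g i * v i x else 0) := by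
        rw [Finset.sum_comm]
        refine Finset.sum_congr rfl fun x _ => ?_
        split_ifs <;> simp
      rw [e3, Finset.sum_congr rfl fun i _ => e2 i] at e1
      have e4 : ∑ i, g i = ∑ i, (g i * (if i = j then 0 else 1) + if i = j then g i else 0) :=
        Finset.sum_congr rfl fun i _ => by split_ifs <;> simp
      rw [e4, Finset.sum_add_distrib, e1]
      simp
    have hT : ∑ i, g i = Fintype.card ι * ∑ i, g i := by
      conv_lhs => rw [Finset.sum_congr rfl fun i _ => hj i]
      simp
    have h3 : (2 : ℚ) ≤ Fintype.card ι := by exact_mod_cast h2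
    have h4 : ∑ i, g i = 0 := by
      by_contra h
      have := mul_right_cancel₀ h ((one_mul _).trans hT)
      linarith
    intro i
    rw [hj i, h4]
  simpa using hv.fintype_card_le_finrank

omit [Fintype V] in
theorem cover (G : SimpleGraph V) (hb : ∀ X : Finset V, X.card ≤ ind G X * cl G X)
    (X : Finset V) : ∃ f : V → ℕ, (∀ v ∈ X, f v < ind G X) ∧
      ∀ u ∈ X, ∀ v ∈ X, f u = f v → u ≠ v → G.Adj u v := by
  induction X using Finset.strongInduction with
  | H X ih =>
  by_contra hn
  have mono : ∀ Y ⊆ X, ind G Y ≤ ind G X := by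
    intro Y hY
    obtain ⟨I, h1, h2, h3⟩ := ex_mx (P := fun I : Finset V => G.IsIndepSet I) (by simp) Y
    exact h3.ge.trans (le_mx (h1.trans hY) h2)
  have hX : X.Nonempty := by
    rw [Finset.nonempty_iff_ne_empty]
    rintro rfl
    exact hn ⟨fun _ => 0, by simp, by simp⟩
  have hK : ∀ S ⊆ X, G.IsClique S → ∃ K ⊆ X, G.IsIndepSet K ∧ K.card = ind G X ∧ K ∩ S = ∅ := by
    intro S hS hc
    rcases S.eq_empty_or_nonempty with rfl | hne
    · obtain ⟨I, h1, h2, h3⟩ := ex_mx (P := fun I : Finset V => G.IsIndepSet I) (by simp) X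
      exact ⟨I, h1, h2, h3, by simp⟩
    obtain ⟨I, h1, h2, h3⟩ := ex_mx (P := fun I : Finset V => G.IsIndepSet I) (by simp) (X \ S)
    by_cases he : I.card = ind G X
    · refine ⟨I, h1.trans sdiff_subset, h2, he, ?_⟩
      ext x
      simpa using fun hx => (mem_sdiff.1 (h1 hx)).2
    exfalso
    have hlt : ind G (X \ S) < ind G X :=
      lt_of_le_of_ne (mono _ sdiff_subset) fun h => he (h3.trans h)
    obtain ⟨f, f1, f2⟩ := ih (X \ S) (Finset.sdiff_ssubset hS hne)
    refine hn ⟨fun v => if v ∈ S then ind G (X \ S) else f v, fun v hv => ?_,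
      fun u hu v hv h huv => ?_⟩
    · beta_reduce
      split_ifs with h
      · exact hlt
      · exact (f1 v (mem_sdiff.2 ⟨hv, h⟩)).trans hlt
    · beta_reduce at h
      split_ifs at h with a b b
      · exact hc a b huv
      · have := f1 v (mem_sdiff.2 ⟨hv, b⟩); omega
      · have := f1 u (mem_sdiff.2 ⟨hu, a⟩); omega
      · exact f2 u (mem_sdiff.2 ⟨hu, a⟩) v (mem_sdiff.2 ⟨hv, b⟩) h huv
  obtain ⟨S0, s1, s2, s3⟩ := ex_mx (P := fun I : Finset V => G.IsClique I) (by simp) X
  have hf := fun v : S0 => ih (X.erase v) (Finset.erase_ssubset (s1 v.2))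
  choose f f1 f2 using hf
  let S : Option (S0 × Fin (ind G X)) → Finset V := fun j =>
    j.elim S0 fun q => (X.erase q.1).filter fun x => f q.1 x = q.2
  have hSX : ∀ j, S j ⊆ X := by
    rintro (_ | q)
    · exact s1
    · exact (filter_subset _ _).trans (erase_subset _ _)
  have hSc : ∀ j, G.IsClique (S j) := by
    rintro (_ | q)
    · exact s2
    · intro x hx y hy hxy
      have hx' := mem_filter.1 hx
      have hy' := mem_filter.1 hy
      exact f2 q.1 x hx'.1 y hy'.1 (hx'.2.trans hy'.2.symm) hxy
  choose K k1 k2 k3 k4 using fun j => hK (S j) (hSX j) (hSc j)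
  have hle : ∀ i j, (K j ∩ S i).card ≤ 1 := by
    intro i j
    refine Finset.card_le_one.2 fun x hx y hy => ?_
    by_contra h
    exact k2 j (mem_inter.1 hx).1 (mem_inter.1 hy).1 h
      (hSc i (mem_inter.1 hx).2 (mem_inter.1 hy).2 h)
  have hsum : ∀ j, ∑ i, (K j ∩ S i).card = S0.card * ind G X := by
    intro j
    rw [Fintype.sum_option, Fintype.sum_prod_type]
    have e1 : ∀ v : S0, ∑ c : Fin (ind G X), (K j ∩ S (some (v, c))).card +
        (if v.1 ∈ K j then 1 else 0) = ind G X := by
      intro v
      have e2 : ((K j).erase v).card = ∑ c ∈ range (ind G X),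
          (((K j).erase v).filter fun x => f v x = c).card :=
        Finset.card_eq_sum_card_fiberwise fun x hx => by
          have hx' : x ∈ X.erase v := erase_subset_erase _ (k1 j) hx
          simpa using (f1 v x hx').trans_le (mono _ (erase_subset _ _))
      have e3 : ∑ c : Fin (ind G X), (K j ∩ S (some (v, c))).card = ((K j).erase v).card := by
        rw [e2, Finset.sum_range]
        refine Finset.sum_congr rfl fun c _ => congrArg card ?_
        ext x
        simp only [S, Option.elim, mem_inter, mem_filter, mem_erase]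
        have := @k1 j x
        tauto
      rw [e3, ← k3 j]
      split_ifs with h
      · exact card_erase_add_one h
      · rw [erase_eq_of_notMem h, add_zero]
    have e4 : ∑ v : S0, (if v.1 ∈ K j then 1 else 0) = (K j ∩ S none).card := by
      rw [Finset.sum_coe_sort S0 (fun v => if v ∈ K j then 1 else 0), Finset.sum_ite_mem]
      simp [S, inter_comm]
    have e5 := Finset.sum_congr rfl fun (v : S0) (_ : v ∈ univ) => e1 v
    rw [Finset.sum_add_distrib, e4] at e5
    simp only [sum_const, card_univ, Fintype.card_coe, smul_eq_mul] at e5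
    omega
  have hcard : Fintype.card (Option (S0 × Fin (ind G X))) = S0.card * ind G X + 1 := by simp
  have hex : ∀ i j, (K j ∩ S i).card = if i = j then 0 else 1 := by
    intro i j
    have e1 : ∀ i ∈ univ, (K j ∩ S i).card ≤ if i = j then 0 else 1 := by
      intro i _
      split_ifs with h
      · simp [h, k4]
      · exact hle i j
    refine (Finset.sum_eq_sum_iff_of_le e1).1 ?_ i (mem_univ _)
    rw [hsum]
    have : ∑ i : Option (S0 × Fin (ind G X)), ((if i = j then 0 else 1) + if i = j then 1 else 0)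
        = S0.card * ind G X + 1 := by
      rw [← hcard, ← card_univ, card_eq_sum_ones]
      exact Finset.sum_congr rfl fun i _ => by split_ifs <;> rfl
    rw [Finset.sum_add_distrib] at this
    simp only [sum_ite_eq', mem_univ, if_true] at this
    omega
  have h1 := hb X
  have h2 := hX.card_pos
  rw [← show S0.card = cl G X from s3, mul_comm] at h1
  have := lin X S K hSX hex (by omega)
  omega

omit [Fintype V] in
theorem noC5 (G : SimpleGraph V) (hb : ∀ X : Finset V, X.card ≤ ind G X * cl G X)
    (a b c d e : V) (h1 : G.Adj a b) (h2 : G.Adj b c) (h3 : G.Adj c d) (h4 : G.Adj d e)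
    (h5 : G.Adj e a) (n1 : ¬ G.Adj a c) (n2 : ¬ G.Adj b d) (n3 : ¬ G.Adj c e) (n4 : ¬ G.Adj d a)
    (n5 : ¬ G.Adj e b) : False := by
  let p : Fin 5 → V := ![a, b, c, d, e]
  have hp : ∀ i j, G.Adj (p i) (p j) ↔ (j = i + 1 ∨ i = j + 1) := by
    intro i j
    have g1 := h1.symm
    have g2 := h2.symm
    have g3 := h3.symm
    have g4 := h4.symm
    have g5 := h5.symm
    have m1 : ¬ G.Adj c a := fun h => n1 h.symm
    have m2 : ¬ G.Adj d b := fun h => n2 h.symm
    have m3 : ¬ G.Adj e c := fun h => n3 h.symm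
    have m4 : ¬ G.Adj a d := fun h => n4 h.symm
    have m5 : ¬ G.Adj b e := fun h => n5 h.symm
    fin_cases i <;> fin_cases j <;> simp [p, *]
  have hi : Function.Injective p := by
    intro i j h
    have e1 := (hp i (i + 1)).2 (Or.inl rfl)
    have e2 := (hp (i - 1) i).2 (Or.inl (by simp))
    rw [h] at e1 e2
    have e3 := (hp _ _).1 e1
    have e4 := (hp _ _).1 e2
    clear h e1 e2
    revert i j
    decide
  have key : ∀ P : Finset V → Prop, P ∅ → (∀ T : Finset (Fin 5), P (T.image p) → T.card ≤ 2) →
      mx P (univ.image p) ≤ 2 := by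
    intro P h0 hP
    obtain ⟨I, i1, i2, i3⟩ := ex_mx h0 (univ.image p)
    obtain ⟨T, -, rfl⟩ := Finset.subset_image_iff.1 i1
    rw [← i3, card_image_of_injective _ hi]
    exact hP T i2
  have k1 := key (fun I => G.IsIndepSet I) (by simp) (fun T hT => by
    have : ∀ i ∈ T, ∀ j ∈ T, i ≠ j → ¬ (j = i + 1 ∨ i = j + 1) := fun i a j b h =>
      (hp i j).not.1 (hT (by simp; exact ⟨i, a, rfl⟩) (by simp; exact ⟨j, b, rfl⟩) (hi.ne h))
    clear hT
    revert T
    decide)
  have k2 := key (fun I => G.IsClique I) (by simp) (fun T hT => by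
    have : ∀ i ∈ T, ∀ j ∈ T, i ≠ j → (j = i + 1 ∨ i = j + 1) := fun i a j b h =>
      (hp i j).1 (hT (by simp; exact ⟨i, a, rfl⟩) (by simp; exact ⟨j, b, rfl⟩) (hi.ne h))
    clear hT
    revert T
    decide)
  have := hb (univ.image p)
  rw [card_image_of_injective _ hi] at this
  have h6 := Nat.mul_le_mul k1 k2
  simp only [card_univ, Fintype.card_fin] at this
  unfold ind cl at this
  omega

end Pool.Agent.H.MP_985997_co.A
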