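import Mathlib

namespace Pool.Agent.H.MP_985997_co.B

theorem game {V : Type} (G : SimpleGraph V) (hc : G.Connected) (f : V → ℕ) (f3 : ∀ v, f v < 3)
    (fa : ∀ u v, f u = f v → u ≠ v → G.Adj u v)
    (no5 : ∀ a b c d e : V, G.Adj a b → G.Adj b c → G.Adj c d → G.Adj d e → G.Adj e a →
      ¬ G.Adj a c → ¬ G.Adj b d → ¬ G.Adj c e → ¬ G.Adj d a → ¬ G.Adj e b → False)
    (L : V → V → V → Prop) (h0 : ∀ x y, ∃ z, L x y z)
    (hL : ∀ x y z x' y', L x y z → (x' = x ∨ G.Adj x x') → (y' = y ∨ G.Adj y y') →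
      x' ≠ z ∧ y' ≠ z ∧ ∃ z', (z' = z ∨ G.Adj z z') ∧ L x' y' z') : False := by
  have st : ∀ x x', f x' = f x ∨ G.Adj x x' → x' = x ∨ G.Adj x x' := by
    intro x x' h
    by_cases e : x' = x
    · exact Or.inl e
    · exact Or.inr (h.elim (fun h => fa _ _ h.symm (Ne.symm e)) id)
  have hN : ∀ x y z, L x y z → ¬ G.Adj x z ∧ ¬ G.Adj y z ∧ f z ≠ f x ∧ f z ≠ f y := by
    intro x y z h
    exact ⟨fun a => (hL x y z z y h (Or.inr a) (Or.inl rfl)).1 rfl,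
      fun a => (hL x y z x z h (Or.inl rfl) (Or.inr a)).2.1 rfl,
      fun a => (hL x y z z y h (st _ _ (Or.inl a)) (Or.inl rfl)).1 rfl,
      fun a => (hL x y z x z h (Or.inl rfl) (st _ _ (Or.inl a))).2.1 rfl⟩
  have mv : ∀ x y z x' y', L x y z → (f x' = f x ∨ G.Adj x x') → (f y' = f y ∨ G.Adj y y') →
      ∃ z', L x' y' z' ∧ ¬ G.Adj x' z' ∧ ¬ G.Adj y' z' ∧ f z' ≠ f x' ∧ f z' ≠ f y' ∧
        f z' < 3 ∧ (f z' ≠ f z → G.Adj z z') := by
    intro x y z x' y' h hx hy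
    obtain ⟨-, -, z', h1, h2⟩ := hL x y z x' y' h (st _ _ hx) (st _ _ hy)
    obtain ⟨a, b, c, d⟩ := hN _ _ _ h2
    exact ⟨z', h2, a, b, c, d, f3 _, fun e => h1.resolve_left fun e' => e (congrArg f e')⟩
  have c5 : ∀ x1 y1 x2 y2 z, f x1 = f x2 → f y1 = f y2 → G.Adj x1 y1 ∨ G.Adj y1 x2 ∨
      G.Adj x2 y2 ∨ G.Adj y2 z ∨ G.Adj z x1 ∨ ¬ G.Adj x1 y2 ∨ ¬ G.Adj y1 z ∨ ¬ G.Adj x2 z := by
    intro x1 y1 x2 y2 z e1 e2
    by_contra hn
    push Not at hn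
    obtain ⟨a1, a2, a3, a4, a5, a6, a7, a8⟩ := hn
    refine no5 x1 x2 z y1 y2 (fa _ _ e1 ?_) a8 a7.symm (fa _ _ e2 ?_) a6.symm
      (fun h => a5 h.symm) (fun h => a2 h.symm) (fun h => a4 h.symm) (fun h => a1 h.symm)
      (fun h => a3 h.symm)
    · rintro rfl
      exact a5 a8.symm
    · rintro rfl
      exact a4 a7
  have sy : ∀ x y, G.Adj x y ↔ G.Adj y x := fun x y => G.adj_comm x y
  have m3 : ∀ x y z x' y' w, L x y z → (f x' = f x ∨ G.Adj x x') → (f y' = f y ∨ G.Adj y y') →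
      f x' ≠ f y' → f w ≠ f x' → f w ≠ f y' →
      ∃ z', L x' y' z' ∧ ¬ G.Adj x' z' ∧ ¬ G.Adj y' z' ∧ f z' = f w ∧
        (f w ≠ f z → G.Adj z z') := by
    intro x y z x' y' w h hx hy d1 d2 d3
    obtain ⟨z', a, b, c, d, e, g, k⟩ := mv _ _ _ _ _ h hx hy
    have := f3 x'
    have := f3 y'
    have := f3 w
    have e : f z' = f w := by omega
    exact ⟨z', a, b, c, e, fun h => k (e ▸ h)⟩
  have one : ∀ c u b, f c ≠ f u → f c ≠ f b → f u ≠ f b → G.Adj c u → G.Adj c b → False := by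
    intro c u b d1 d2 d3 cu cb
    obtain ⟨v0, l0⟩ := h0 u b
    obtain ⟨v3, l3, a3, b3, e3, -⟩ := m3 _ _ _ u b c l0 (Or.inl rfl) (Or.inl rfl) d3 d1 d2
    obtain ⟨v4, l4, a4, b4, e4, g4⟩ := m3 _ _ _ u c b l3 (Or.inl rfl) (Or.inr cb.symm)
      d1.symm d3.symm d2.symm
    obtain ⟨v5, l5, a5, b5, e5, g5⟩ := m3 _ _ _ c b u l3 (Or.inr cu.symm) (Or.inl rfl)
      d2 d1.symm d3
    obtain ⟨v6, l6, a6, b6, e6, g6⟩ := m3 _ _ _ c v4 u l3 (Or.inr cu.symm) (Or.inl e4)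
      (by omega) d1.symm (by omega)
    obtain ⟨v8, l8, a8, b8, e8, -⟩ := m3 _ _ _ u v3 b l4 (Or.inl rfl) (Or.inl e3)
      (by omega) d3.symm (by omega)
    obtain ⟨v11, l11, a11, b11, e11, g11⟩ := m3 _ _ _ u c b l5 (Or.inr cu) (Or.inr cb.symm)
      d1.symm d3.symm d2.symm
    obtain ⟨v21, l21, a21, b21, e21, g21⟩ := m3 _ _ _ v6 b c l4 (Or.inl e6) (Or.inr cb)
      (by omega) (by omega) d2
    have g4 := g4 (by omega)
    have g5 := g5 (by omega)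
    have g6 := g6 (by omega)
    have g11 := g11 (by omega)
    have g21 := g21 (by omega)
    have q1 := c5 v5 b u v11 c e5 e11.symm
    rw [sy v5 b, sy b u, sy v11 c, sy b c, sy u c] at q1
    have q2 := c5 v5 c v6 v21 b (e5.trans e6.symm) e21.symm
    rw [sy v5 c, sy v21 b, sy v6 b] at q2
    have q4 := c5 b v3 v8 c v5 e8.symm e3
    rw [sy v8 c, sy v5 b, sy b c, sy v8 v5] at q4
    have q6 := c5 u v21 v5 c v4 e5.symm e21
    rw [sy v21 v5, sy v5 c, sy v4 u, sy u c, sy v21 v4, sy v5 v4] at q6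
    have q7 := c5 u v4 v6 b v3 e6.symm e4
    rw [sy v6 b, sy v3 u, sy v4 v3, sy v6 v3] at q7
    have q9 := c5 u v4 v5 b v3 e5.symm e4
    rw [sy v5 b, sy v3 u, sy v4 v3, sy v5 v3] at q9
    have n8 : ¬ G.Adj c v8 := by
      intro h
      obtain ⟨v16, -, p2, p3, e16, p4⟩ := m3 _ _ _ c v8 u l4 (Or.inr cu.symm) (Or.inr h)
        (by omega) d1.symm (by omega)
      have p4 := p4 (by omega)
      have q11 := c5 v16 v8 u v4 c e16 (e8.trans e4.symm)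
      rw [sy v16 v8, sy v8 u, sy v4 c, sy v16 v4, sy v8 c, sy u c] at q11
      simp only [*, false_or, not_true, or_self] at q11
    by_cases hub : G.Adj u b
    · obtain ⟨v18, -, p2, p3, e18, p4⟩ := m3 _ _ _ b c u l8 (Or.inr hub) (Or.inl e3.symm)
        d2.symm d3 d1.symm
      have p4 := p4 (by omega)
      have q0 := c5 v18 v4 u v8 v21 e18 (e4.trans e8.symm)
      rw [sy v18 v4, sy v4 u, sy v21 v18, sy v18 v8] at q0
      have q3 := c5 u v3 v18 c v4 e18.symm e3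
      rw [sy v18 c, sy v4 u, sy u c, sy v18 v4] at q3
      have q5 := c5 v5 v21 v18 v3 v8 (e5.trans e18.symm) (e21.trans e3.symm)
      rw [sy v21 v18, sy v18 v3, sy v8 v5, sy v5 v3, sy v21 v8, sy v18 v8] at q5
      have q8 := c5 b v3 v8 c v18 e8.symm e3
      rw [sy v8 c, sy v18 b, sy b c] at q8
      have q10 := c5 v18 c v6 v21 b (e18.trans e6.symm) e21.symm
      rw [sy v18 c, sy v21 b, sy v6 b] at q10
      simp only [*, false_or, not_true, or_false, not_false_eq_true, true_or, or_true] at q0 q1 q2 q3 q4 q5 q6 q7 q8 q9 q10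
      clear * - q0 q1 q2 q3 q4 q5 q6 q7 q8 q9 q10
      tauto
    · simp only [*, false_or, not_true, or_false, not_false_eq_true, true_or, or_true] at q1 q2 q4 q6 q7 q9
  have two : ∀ u v c1 c2, f u ≠ f v → f u ≠ f c1 → f v ≠ f c1 → f c1 = f c2 → G.Adj u c1 →
      G.Adj v c2 → False := by
    intro u v c1 c2 d1 d2 d3 d4 a1 a2
    have := f3 u
    have := f3 v
    have := f3 c1
    obtain ⟨r, l⟩ := h0 u v
    obtain ⟨-, -, r1, r2⟩ := hN _ _ _ l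
    have := f3 r
    obtain ⟨s, -, -, -, s1, s2, s3, s4⟩ := mv _ _ _ c1 v l (Or.inr a1) (Or.inl rfl)
    obtain ⟨t, -, -, -, t1, t2, t3, t4⟩ := mv _ _ _ u c2 l (Or.inl rfl) (Or.inr a2)
    exact one r s t (by omega) (by omega) (by omega) (s4 (by omega)) (t4 (by omega))
  have out : ∀ x y, f x ≠ f y → ∃ p q, f p = f x ∧ f q ≠ f x ∧ G.Adj p q := by
    intro x y h
    obtain ⟨w⟩ := hc.preconnected x y
    obtain ⟨d, -, d1, d2⟩ := w.exists_boundary_dart {v | f v = f x} rfl (Ne.symm h)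
    exact ⟨_, _, d1, d2, d.adj⟩
  obtain ⟨x⟩ := hc.nonempty
  obtain ⟨y, ly⟩ := h0 x x
  obtain ⟨p, q, p1, p2, p3⟩ := out x y (hN _ _ _ ly).2.2.1.symm
  obtain ⟨z, lz⟩ := h0 p q
  obtain ⟨-, -, z1, z2⟩ := hN _ _ _ lz
  obtain ⟨s, t, s1, s2, s3⟩ := out z p z1
  have := f3 p
  have := f3 q
  have := f3 z
  have := f3 t
  by_cases ht : f t = f p
  · exact two q s p t (by omega) (by omega) (by omega) ht.symm p3.symm s3
  · exact two p s q t (by omega) (by omega) (by omega) (by omega) p3 s3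

end Pool.Agent.H.MP_985997_co.B
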